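import Pool.Agent.H.MP_ea7ca7_co.E

namespace Pool.Agent.Results.MP_ea7ca7_co.Yes

open Pool.Agent.H.MP_ea7ca7_co

theorem result : ∃ K : ℕ, ∀ k : ℕ, K < k → ∃ P : Finset (ℤ × ℤ), IsRepCube P k :=
  ⟨139966, main⟩

end Pool.Agent.Results.MP_ea7ca7_co.Yes
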